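import Pool.Agent.H94.Stab.Main
import Pool.Agent.H96.DPRM.Main

set_option autoImplicit false

namespace Pool.Agent.Results.MP_c22137_lc.StabilityNotSemidecidable

/-- The vector field coded by a finite list of rational monomials. An entry `(i, m, (a, b))` adds
the monomial `(a / (b + 1)) * ∏ j, x j ^ m j` to the `i`-th component; entries whose total degree is
`0` or exceeds `D` are dropped, so the field has degree at most `D` and vanishes at the origin. -/
noncomputable def field (N D : ℕ) (L : List (Fin N × (Fin N → ℕ) × (ℤ × ℕ)))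
    (x : Fin N → ℝ) (i : Fin N) : ℝ :=
  (L.map (fun p : Fin N × (Fin N → ℕ) × (ℤ × ℕ) =>
    if p.1 = i ∧ 0 < ∑ j, p.2.1 j ∧ ∑ j, p.2.1 j ≤ D then
      ((p.2.2.1 : ℝ) / ((p.2.2.2 : ℝ) + 1)) * ∏ j, (x j) ^ (p.2.1 j)
    else 0)).sum

/-- Lyapunov stability of the origin for `x' = F x`: for every `ε > 0` there is `δ > 0` such that
every solution on an interval `[0, T]` that starts in the `δ`-ball stays in the `ε`-ball. -/
def Stable {N : ℕ} (F : (Fin N → ℝ) → Fin N → ℝ) : Prop :=
  ∀ ε : ℝ, 0 < ε → ∃ δ : ℝ, 0 < δ ∧ ∀ T : ℝ, 0 ≤ T → ∀ γ : ℝ → (Fin N → ℝ), ‖γ 0‖ < δ →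
    (∀ t ∈ Set.Icc (0 : ℝ) T, HasDerivWithinAt γ (F (γ t)) (Set.Icc (0 : ℝ) T) t) →
    ∀ t ∈ Set.Icc (0 : ℝ) T, ‖γ t‖ < ε

/-- For some dimension `N` and degree bound `D`, the set of (codes of) rational polynomial vector
fields with a Lyapunov stable origin is not recursively enumerable. -/
theorem result : ∃ N D : ℕ, ¬ REPred
    (fun L : List (Fin N × (Fin N → ℕ) × (ℤ × ℕ)) => Stable (field N D L)) := by
  obtain ⟨p, hp, hpn⟩ := Pool.Agent.H96.DPRM.exists_re_not_computable
  obtain ⟨k, P, hP⟩ := Pool.Agent.H96.DPRM.dprm hp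
  obtain ⟨N, D, L, hLc, hiff⟩ := Pool.Agent.H94.Stab.main_iff P 0
  refine ⟨N, D, fun hre => hpn ?_⟩
  have hcomp : ∀ n, Stable (field N D (L n)) ↔ ¬ p n := by
    intro n
    have h1 := hiff n
    have h2 : (∃ y : Fin (k + 1) → ℕ, y 0 = n ∧
        MvPolynomial.eval (fun i => (y i : ℤ)) P = 0) ↔ p n := by
      rw [hP n]
      constructor
      · rintro ⟨y, hy0, hy⟩
        refine ⟨fun i => y i.succ, ?_⟩
        have e : (Fin.cons (n : ℤ) (fun i : Fin k => ((y i.succ : ℕ) : ℤ)) : Fin (k + 1) → ℤ) =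
            fun i => (y i : ℤ) := by
          funext i
          refine Fin.cases ?_ (fun j => ?_) i
          · simp [hy0]
          · simp
        rw [e]; exact hy
      · rintro ⟨x, hx⟩
        refine ⟨Fin.cons n x, by simp, ?_⟩
        have e : (Fin.cons (n : ℤ) (fun i : Fin k => ((x i : ℕ) : ℤ)) : Fin (k + 1) → ℤ) =
            fun i => (((Fin.cons n x : Fin (k + 1) → ℕ) i : ℕ) : ℤ) := by
          funext i
          refine Fin.cases ?_ (fun j => ?_) i
          · simp
          · simp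
        rw [e] at hx; exact hx
    rw [h2] at h1
    exact h1
  have hre' : REPred (fun n => ¬ p n) := by
    have h3 : REPred (fun n => Stable (field N D (L n))) :=
      Partrec.comp hre hLc
    exact h3.of_eq hcomp
  exact ComputablePred.computable_iff_re_compl_re'.2 ⟨hp, hre'⟩

end Pool.Agent.Results.MP_c22137_lc.StabilityNotSemidecidable
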